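import Pool.Agent.WIR.StmtsB

/-!
# Squad WIR, row FPB (helper87): first passage of the iterated double steps.
-/

set_option autoImplicit false

namespace Pool.Agent.WIR.H87

open Pool.Agent.WIR

theorem kh_sum (B : ℕ) (S : Finset ℕ) (w : ℕ → ℝ) (g : ℕ → ℕ → ℝ) (l : ℕ) :
    Kh B (fun x => ∑ r ∈ S, w r * g r x) l = ∑ r ∈ S, w r * Kh B (g r) l := by
  unfold Kh
  simp_rw [Finset.mul_sum]
  rw [Finset.sum_comm]
  refine Finset.sum_congr rfl fun r _ => Finset.sum_congr rfl fun x _ => ?_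
  ring

theorem gh_sum (B : ℕ) (S : Finset ℕ) (w : ℕ → ℝ) (g : ℕ → ℕ → ℝ) (l : ℕ) :
    Gh B (fun x => ∑ r ∈ S, w r * g r x) l = ∑ r ∈ S, w r * Gh B (g r) l := by
  unfold Gh
  simp_rw [Finset.mul_sum]
  rw [Finset.sum_comm]
  refine Finset.sum_congr rfl fun r _ => Finset.sum_congr rfl fun x _ => ?_
  ring

theorem iter_sum (B : ℕ) (S : Finset ℕ) (w : ℕ → ℝ) (g : ℕ → ℕ → ℝ) (i : ℕ) :
    (Kh B)^[i] (fun x => ∑ r ∈ S, w r * g r x) =
      fun x => ∑ r ∈ S, w r * (Kh B)^[i] (g r) x := by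
  induction i with
  | zero => rfl
  | succ i ih =>
    rw [Function.iterate_succ_apply', ih]
    funext x
    rw [kh_sum]
    refine Finset.sum_congr rfl fun r _ => ?_
    rw [Function.iterate_succ_apply']

theorem iter_le (hM : MonStmt) (hO : MomStmt) (B y0 : ℕ) (α β : ℝ) (hα : 0 ≤ α) (hβ : 0 ≤ β)
    (g : ℕ → ℝ) (hg : ∀ x, y0 ≤ x → g x ≤ α * ((x : ℝ) - y0) + β) (i : ℕ) :
    ∀ x, y0 ≤ x → (Kh B)^[i] g x ≤ α * ((x : ℝ) - y0) + (β + 4 * i * α) := by
  induction i with
  | zero =>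
    intro x hx
    have := hg x hx
    simpa using this
  | succ i ih =>
    intro x hx
    rw [Function.iterate_succ_apply']
    have h1 := (hM.1 B ((Kh B)^[i] g) (fun x => α * ((x : ℝ) - y0) + (β + 4 * i * α)) x
      (fun y hy _ => ih y (by omega))).2
    have hb : 0 ≤ β + 4 * i * α := by positivity
    have h2 := (hO B x y0 α (β + 4 * i * α) hα hb hx).2
    refine h1.trans (h2.trans (le_of_eq ?_))
    push_cast
    ring

theorem fpb (hM : MonStmt) (hO : MomStmt) : FpbStmt := by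
  intro B s i j l f α β _ hα hβ hF
  set w : ℕ → ℝ := fun r => (s.choose r : ℝ) * (1 / 2 : ℝ) ^ s with hw
  have split : FPE B s (s + 1) (fun k x => (Kh B)^[i] (f (j + k + i)) x) l =
      ∑ r ∈ (Finset.range (s + 1)).filter (fun r => r % 2 = 0),
        w r * Kh B ((Kh B)^[i] (f (j + r / 2 + 1 + i))) (l + s) +
      ∑ r ∈ (Finset.range (s + 1)).filter (fun r => r % 2 = 1),
        w r * Gh B ((Kh B)^[i] (f (j + r / 2 + 1 + i))) (l + s) := by
    unfold FPE
    rw [← Finset.sum_filter_add_sum_filter_not (Finset.range (s + 1)) (fun r => r % 2 = 0)]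
    have e : (Finset.range (s + 1)).filter (fun r => ¬ r % 2 = 0) =
        (Finset.range (s + 1)).filter (fun r => r % 2 = 1) := by
      ext r
      simp only [Finset.mem_filter]
      constructor
      · rintro ⟨h1, h2⟩
        exact ⟨h1, by omega⟩
      · rintro ⟨h1, h2⟩
        exact ⟨h1, by omega⟩
    rw [e]
    congr 1
    · refine Finset.sum_congr rfl fun r hr => ?_
      rw [Finset.mem_filter, Finset.mem_range] at hr
      rw [if_pos hr.1, if_pos (Nat.even_iff.2 hr.2)]
      rfl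
    · refine Finset.sum_congr rfl fun r hr => ?_
      rw [Finset.mem_filter, Finset.mem_range] at hr
      have ho : ¬ Even r := by
        rw [Nat.even_iff]
        omega
      rw [if_pos hr.1, if_neg ho]
      rfl
  have ev : ∑ r ∈ (Finset.range (s + 1)).filter (fun r => r % 2 = 0),
        w r * Kh B ((Kh B)^[i] (f (j + r / 2 + 1 + i))) (l + s) ≤ α * (4 * i + 4) + β := by
    rw [← kh_sum B _ w (fun r => (Kh B)^[i] (f (j + r / 2 + 1 + i))) (l + s),
      ← iter_sum B _ w (fun r => f (j + r / 2 + 1 + i)) i]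
    have h := iter_le hM hO B (l + s) α β hα hβ
      (fun x => ∑ r ∈ (Finset.range (s + 1)).filter (fun r => r % 2 = 0),
        w r * f (j + r / 2 + 1 + i) x) (fun x hx => hF 0 x (by norm_num) hx) (i + 1) (l + s) le_rfl
    rw [Function.iterate_succ_apply'] at h
    refine h.trans (le_of_eq ?_)
    push_cast
    ring
  have od : ∑ r ∈ (Finset.range (s + 1)).filter (fun r => r % 2 = 1),
        w r * Gh B ((Kh B)^[i] (f (j + r / 2 + 1 + i))) (l + s) ≤ α * (4 * i + 4) + β := by
    rw [← gh_sum B _ w (fun r => (Kh B)^[i] (f (j + r / 2 + 1 + i))) (l + s),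
      ← iter_sum B _ w (fun r => f (j + r / 2 + 1 + i)) i]
    have h := iter_le hM hO B (l + s) α β hα hβ
      (fun x => ∑ r ∈ (Finset.range (s + 1)).filter (fun r => r % 2 = 1),
        w r * f (j + r / 2 + 1 + i) x) (fun x hx => hF 1 x le_rfl hx) i
    have h1 := (hM.1 B ((Kh B)^[i] (fun x =>
      ∑ r ∈ (Finset.range (s + 1)).filter (fun r => r % 2 = 1),
        w r * f (j + r / 2 + 1 + i) x))
      (fun x => α * ((x : ℝ) - (l + s : ℕ)) + (β + 4 * i * α)) (l + s)
      (fun y hy _ => h y (by omega))).1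
    have hb : 0 ≤ β + 4 * i * α := by positivity
    have h2 := (hO B (l + s) (l + s) α (β + 4 * i * α) hα hb le_rfl).1
    refine h1.trans (h2.trans ?_)
    push_cast
    nlinarith
  rw [split]
  linarith

end Pool.Agent.WIR.H87
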